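import Pool.Agent.helper67.TSC.Spec

set_option autoImplicit false

open Finset

noncomputable section

namespace Pool.Agent.TSC

open Pool.Agent.EP

theorem XB3_two (y j : ℕ) (hj0 : 0 < j) (hj : j < y ^ 3) :
    #{p ∈ range (j + 1) | p.Prime ∧ y < p ∧ p ∣ j} ≤ 2 := by
  classical
  by_contra hcon
  push Not at hcon
  obtain ⟨p, q, r, hp, hq, hr, hpq, hpr, hqr⟩ := Finset.two_lt_card_iff.mp hcon
  simp only [mem_filter, mem_range] at hp hq hr
  obtain ⟨-, hp1, hp2, hp3⟩ := hp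
  obtain ⟨-, hq1, hq2, hq3⟩ := hq
  obtain ⟨-, hr1, hr2, hr3⟩ := hr
  have c1 : Nat.Coprime p q := (Nat.coprime_primes hp1 hq1).mpr hpq
  have c2 : Nat.Coprime p r := (Nat.coprime_primes hp1 hr1).mpr hpr
  have c3 : Nat.Coprime q r := (Nat.coprime_primes hq1 hr1).mpr hqr
  have d1 : p * q ∣ j := c1.mul_dvd_of_dvd_of_dvd hp3 hq3
  have d2 : p * q * r ∣ j := (Nat.Coprime.mul_left c2 c3).mul_dvd_of_dvd_of_dvd d1 hr3
  have hle : p * q * r ≤ j := Nat.le_of_dvd hj0 d2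
  have e4 : y * y * y ≤ p * q * r := Nat.mul_le_mul (Nat.mul_le_mul hp2.le hq2.le) hr2.le
  have e5 : y ^ 3 = y * y * y := by ring
  omega

theorem XB3 : XB3_stmt := by
  classical
  intro a y k K X hy3 hk hy
  have hkA : k * 2 ^ a ≤ 2 * K * 2 ^ a := Nat.mul_le_mul_right _ hk
  have hW : ∀ w ∈ ws (k * 2 ^ a), w < Nat.sqrt (2 * K * 2 ^ a) + 1 ∧ 0 < k * 2 ^ a - 3 * w ^ 2 ∧
      k * 2 ^ a - 3 * w ^ 2 < y ^ 3 := by
    intro w hw
    simp only [ws, mem_filter, mem_range] at hw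
    obtain ⟨-, hw1, hw2⟩ := hw
    have h1 : 0 < w := by omega
    have h2 : 0 < w ^ 2 := by positivity
    refine ⟨?_, by omega, by omega⟩
    have h3 : w ≤ Nat.sqrt (2 * K * 2 ^ a) := by
      rw [Nat.le_sqrt']
      omega
    omega
  have hWc : #(ws (k * 2 ^ a)) ≤ Nat.sqrt (2 * K * 2 ^ a) + 1 := by
    have h1 : ws (k * 2 ^ a) ⊆ range (Nat.sqrt (2 * K * 2 ^ a) + 1) := by
      intro w hw
      exact mem_range.mpr (hW w hw).1
    have h2 := card_le_card h1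
    simpa using h2
  set F : Finset ℕ := (ws (k * 2 ^ a)).biUnion fun w =>
    ({p ∈ range (k * 2 ^ a - 3 * w ^ 2 + 1) | p.Prime ∧ y < p ∧ p ∣ k * 2 ^ a - 3 * w ^ 2}).biUnion
      fun p => {n ∈ range (X + 1) | 2 ^ a < 24 * n + 3 ∧ p ∣ 24 * n + 3 - 2 ^ a} with hF
  have hsub : {n : ℕ | n ≤ X ∧ 2 ^ a < 24 * n + 3 ∧ XB a y k n} ⊆ (F : Set ℕ) := by
    rintro n ⟨hn1, hn2, p, hp, hyp, hpd, w, hw, hpw⟩
    simp only [hF, coe_biUnion, Set.mem_iUnion, mem_coe, mem_filter, mem_range]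
    refine ⟨w, hw, p, ⟨?_, hp, hyp, hpw⟩, by omega, hn2, hpd⟩
    have h1 := Nat.le_of_dvd (hW w hw).2.1 hpw
    omega
  calc Set.ncard {n : ℕ | n ≤ X ∧ 2 ^ a < 24 * n + 3 ∧ XB a y k n}
      ≤ Set.ncard (F : Set ℕ) := Set.ncard_le_ncard hsub (Finset.finite_toSet F)
    _ = #F := Set.ncard_coe_finset F
    _ ≤ #(ws (k * 2 ^ a)) * (2 * (X / y + 1)) := by
        apply card_biUnion_le_card_mul
        intro w hw
        refine le_trans (card_biUnion_le_card_mul _ _ (X / y + 1) ?_) ?_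
        · intro p hp
          simp only [mem_filter, mem_range] at hp
          exact XB1_class a p X y hp.2.1 hp.2.2.1 (by omega) (by omega)
        · exact Nat.mul_le_mul_right _ (XB3_two y _ (hW w hw).2.1 (hW w hw).2.2)
    _ ≤ (Nat.sqrt (2 * K * 2 ^ a) + 1) * (2 * (X / y + 1)) := Nat.mul_le_mul_right _ hWc
    _ = 2 * (Nat.sqrt (2 * K * 2 ^ a) + 1) * (X / y + 1) := by ring

theorem XT1 : XT1_stmt := by
  classical
  intro X
  have hsub : {n : ℕ | n ≤ X ∧ XT n} ⊆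
      (((range (Nat.sqrt (8 * X + 1) + 1)).image fun u => (u ^ 2 - 1) / 8 : Finset ℕ) : Set ℕ) := by
    rintro n ⟨hn, u, hu⟩
    simp only [coe_image, Set.mem_image, mem_coe, mem_range]
    have h1 : u ^ 2 = 8 * n + 1 := by omega
    refine ⟨u, ?_, ?_⟩
    · have h3 : u ≤ Nat.sqrt (8 * X + 1) := by
        rw [Nat.le_sqrt']
        omega
      omega
    · rw [h1]
      omega
  calc Set.ncard {n : ℕ | n ≤ X ∧ XT n}
      ≤ Set.ncard (((range (Nat.sqrt (8 * X + 1) + 1)).image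
          fun u => (u ^ 2 - 1) / 8 : Finset ℕ) : Set ℕ) :=
        Set.ncard_le_ncard hsub (Finset.finite_toSet _)
    _ = #((range (Nat.sqrt (8 * X + 1) + 1)).image fun u => (u ^ 2 - 1) / 8) :=
        Set.ncard_coe_finset _
    _ ≤ #(range (Nat.sqrt (8 * X + 1) + 1)) := card_image_le
    _ = Nat.sqrt (8 * X + 1) + 1 := card_range _

end Pool.Agent.TSC
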